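import Pool.Agent.helper50.MA.SpecF

/-! # Project ma: F3 (comparison and contact) -/

set_option autoImplicit false

open MeasureTheory Set Filter Topology
open scoped ContDiff Real

namespace MAP

/-- locality in both arguments -/
theorem F3_loc {X : Type} [TopologicalSpace X] [MeasurableSpace X] (T : MATh X) (f f' : X → ℝ)
    (hf : f ∈ T.C0) (hf' : f' ∈ T.C0) (U : Set X) (hU : IsOpen U) (h : ∀ x ∈ U, f x = f' x)
    (A : Set X) (hA : MeasurableSet A) (hAU : A ⊆ U) : T.M f f A = T.M f' f' A := by
  rw [T.loc f hf f' hf' f hf U hU h A hA hAU, T.symm f' hf' f hf,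
    T.loc f hf f' hf' f' hf' U hU h A hA hAU]

theorem F3 (hF0 : F0_stmt) (hF1 : F1_stmt) : F3_stmt := by
  intro X _ _ _ _ _ _ T u hu v hv
  have hucont := T.cont u hu
  have hvcont := T.cont v hv
  have hw : (fun x => max (u x) (v x)) ∈ T.C0 := T.max_mem u hu v hv
  have hfin : ∀ f ∈ T.C0, IsFiniteMeasure (T.M f f) := fun f hf => T.fin f hf f hf
  have hfinu := hfin u hu
  have hfinv := hfin v hv
  have hfinw := hfin _ hw
  constructor
  · -- comparison
    have hU1 : IsOpen {x | u x < v x} := isOpen_lt hucont hvcont
    have hU2 : IsOpen {x | v x < u x} := isOpen_lt hvcont hucont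
    have h1 : T.M (fun x => max (u x) (v x)) (fun x => max (u x) (v x)) {x | u x < v x} =
        T.M v v {x | u x < v x} :=
      F3_loc T _ v hw hv {x | u x < v x} hU1 (fun x hx => max_eq_right (le_of_lt hx)) _
        hU1.measurableSet (le_refl _)
    have h2 : T.M (fun x => max (u x) (v x)) (fun x => max (u x) (v x)) {x | v x < u x} =
        T.M u u {x | v x < u x} :=
      F3_loc T _ u hw hu {x | v x < u x} hU2 (fun x hx => max_eq_left (le_of_lt hx)) _
        hU2.measurableSet (le_refl _)
    have h3 : (T.M (fun x => max (u x) (v x)) (fun x => max (u x) (v x))).real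
        ({x | u x < v x} ∪ {x | v x < u x}) ≤ T.V := by
      rw [← T.mass _ hw _ hw]
      exact measureReal_mono (subset_univ _)
    rw [measureReal_union (by
      rw [Set.disjoint_left]
      intro x hx hx'
      have hx1 : u x < v x := hx
      have hx2 : v x < u x := hx'
      exact lt_asymm hx1 hx2) hU2.measurableSet] at h3
    have h4 : (T.M (fun x => max (u x) (v x)) (fun x => max (u x) (v x))).real {x | u x < v x} =
        (T.M v v).real {x | u x < v x} := by rw [measureReal_def, measureReal_def, h1]
    have h5 : (T.M (fun x => max (u x) (v x)) (fun x => max (u x) (v x))).real {x | v x < u x} =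
        (T.M u u).real {x | v x < u x} := by rw [measureReal_def, measureReal_def, h2]
    rw [h4, h5] at h3
    have h6 : (T.M u u).real {x | u x ≤ v x} + (T.M u u).real {x | v x < u x} = T.V := by
      rw [← T.mass u hu u hu, ← measureReal_union (by
        rw [Set.disjoint_left]
        intro x hx hx'
        have hx1 : u x ≤ v x := hx
        have hx2 : v x < u x := hx'
        exact absurd hx2 (not_lt.2 hx1)) hU2.measurableSet]
      congr 1
      ext x
      simp only [mem_union, mem_ofPred_eq, mem_univ, iff_true]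
      exact le_or_gt (u x) (v x)
    linarith
  · -- contact
    intro U hU huv A hA hAU hAeq
    refine le_of_forall_pos_le_add fun ε hε => ?_
    -- a closed subset
    have hε2 : (0 : ℝ) < ε / 2 := by positivity
    obtain ⟨K, hKA, hKcl, hK⟩ := hA.exists_isClosed_lt_add (μ := T.M u u) (measure_ne_top _ _)
      (ε := ENNReal.ofReal (ε / 2)) (by
        rw [Ne, ENNReal.ofReal_eq_zero, not_le]; exact hε2)
    have hK' : (T.M u u).real A ≤ (T.M u u).real K + ε / 2 := by
      have h1 := ENNReal.toReal_mono (by
        exact ENNReal.add_ne_top.2 ⟨measure_ne_top _ _, ENNReal.ofReal_ne_top⟩) hK.le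
      rw [ENNReal.toReal_add (measure_ne_top _ _) ENNReal.ofReal_ne_top,
        ENNReal.toReal_ofReal hε2.le] at h1
      exact h1
    -- the approximating sequence
    let w : ℕ → X → ℝ := fun n x => max (u x + 1 / ((n : ℝ) + 1)) (v x)
    have hpos : ∀ n : ℕ, (0 : ℝ) < 1 / ((n : ℝ) + 1) := fun n => Nat.one_div_pos_of_nat
    have hwn : ∀ n, w n ∈ T.C0 := fun n => T.max_mem _ (T.add_const u hu _) v hv
    have huni : ∀ ε : ℝ, 0 < ε → ∀ᶠ n in atTop, ∀ x, |w n x - max (u x) (v x)| ≤ ε := by
      intro δ hδ
      have h1 : Tendsto (fun n : ℕ => 1 / ((n : ℝ) + 1)) atTop (𝓝 0) :=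
        tendsto_one_div_add_atTop_nhds_zero_nat
      filter_upwards [h1.eventually (gt_mem_nhds hδ)] with n hn x
      have h2 : |w n x - max (u x) (v x)| ≤ |u x + 1 / ((n : ℝ) + 1) - u x| :=
        abs_max_sub_max_le_abs _ _ _
      rw [add_sub_cancel_left, abs_of_pos (hpos n)] at h2
      exact h2.trans hn.le
    have hweak := (hF1 X T).2 w hwn _ hw huni
    have h1 := (hF0 X ℕ atTop (fun n => T.M (w n) (w n)) _ (fun n => hfin _ (hwn n)) hfinw
      hweak).1 K hKcl (ε / 2) hε2
    obtain ⟨n, hn⟩ := h1.exists
    -- the measure of `K`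
    have h2 : T.M (w n) (w n) K = T.M u u K := by
      have h3 : (fun x => u x + 1 / ((n : ℝ) + 1)) ∈ T.C0 := T.add_const u hu _
      have hO : IsOpen {x | v x < u x + 1 / ((n : ℝ) + 1)} :=
        isOpen_lt hvcont (hucont.add continuous_const)
      rw [F3_loc T (w n) _ (hwn n) h3 {x | v x < u x + 1 / ((n : ℝ) + 1)} hO
        (fun x hx => max_eq_left (le_of_lt hx)) K hKcl.measurableSet (by
          intro x hx
          show v x < u x + 1 / ((n : ℝ) + 1)
          have h4 := hAeq x (hKA hx)
          have := hpos n
          linarith)]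
      rw [T.const u hu _ h3, T.symm u hu _ h3, T.const u hu u hu]
    have h3 : T.M (fun x => max (u x) (v x)) (fun x => max (u x) (v x)) K = T.M v v K :=
      F3_loc T _ v hw hv U hU (fun x hx => max_eq_right (huv x hx)) K hKcl.measurableSet
        (hKA.trans hAU)
    have h4 : (T.M (w n) (w n)).real K = (T.M u u).real K := by
      rw [measureReal_def, measureReal_def, h2]
    have h5 : (T.M (fun x => max (u x) (v x)) (fun x => max (u x) (v x))).real K =
        (T.M v v).real K := by rw [measureReal_def, measureReal_def, h3]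
    have h6 : (T.M v v).real K ≤ (T.M v v).real A := measureReal_mono hKA
    have hn' : (T.M (w n) (w n)).real K ≤
      (T.M (fun x => max (u x) (v x)) (fun x => max (u x) (v x))).real K + ε / 2 := hn
    rw [h4, h5] at hn'
    linarith

end MAP
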