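import Pool.Agent.helper50.MA.Spec3

/-! # Project ma: K7 (regularisation of general omega-psh functions) -/

set_option autoImplicit false

open MeasureTheory Set Filter Topology Complex
open scoped ContDiff Real

namespace MAP

theorem K7_lap_add (u : C2 → ℝ) (c : ℝ) (y ξ : C2) : lap (fun z => u z + c) y ξ = lap u y ξ := by
  have h : fderiv ℝ (fun z => u z + c) = fderiv ℝ u := by
    funext z
    exact fderiv_add_const c
  unfold lap D2
  rw [h]

theorem K7_lap_zero (u : C2 → ℝ) (y : C2) : lap u y 0 = 0 := by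
  unfold lap D2
  simp

theorem K7_cont {X : Type} [TopologicalSpace X] (K : KS X) (f : X → ℝ) (hf : f ∈ K.PS) :
    Continuous f := by
  rw [continuous_iff_continuousAt]
  intro x
  obtain ⟨i, hx, -⟩ := K.cover x
  have h1 : ContinuousAt (K.lo i f) (K.e i x) :=
    (hf.1 i).continuousOn.continuousAt ((K.e i).open_target.mem_nhds ((K.e i).map_source hx))
  have h2 : ContinuousAt (K.lo i f ∘ K.e i) x :=
    ContinuousAt.comp (g := K.lo i f) h1 ((K.e i).continuousAt hx)
  refine h2.congr ?_
  filter_upwards [(K.e i).open_source.mem_nhds hx] with z hz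
  show K.lo i f (K.e i z) = f z
  unfold KS.lo
  rw [(K.e i).left_inv hz]

theorem K7_add {X : Type} [TopologicalSpace X] (K : KS X) (f : X → ℝ) (hf : f ∈ K.PS) (c : ℝ) :
    (fun x => f x + c) ∈ K.PS := by
  refine ⟨fun i => ?_, fun i y hy ξ => ?_⟩
  · have h1 := hf.1 i
    have h2 : K.lo i (fun x => f x + c) = fun y => K.lo i f y + c := rfl
    rw [h2]
    exact h1.add contDiffOn_const
  · have h2 : K.pot i (fun x => f x + c) = fun y => K.pot i f y + c := by
      funext z
      unfold KS.pot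
      ring
    rw [h2, K7_lap_add]
    exact hf.2 i y hy ξ

theorem K7_cbal (c : C2) (r : ℝ) : IsCompact (cbal c r) := by
  rw [Metric.isCompact_iff_isClosed_bounded]
  constructor
  · unfold cbal nsq
    exact isClosed_le (by fun_prop) continuous_const
  · refine (Metric.isBounded_closedBall (x := c) (r := |r|)).subset ?_
    intro x hx
    have hx' : ‖(x - c).1‖ ^ 2 + ‖(x - c).2‖ ^ 2 ≤ r ^ 2 := hx
    rw [Metric.mem_closedBall, dist_eq_norm, Prod.norm_def]
    refine max_le ?_ ?_
    · apply abs_le_of_sq_le_sq' _ (abs_nonneg r) |>.2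
      rw [sq_abs]
      nlinarith [sq_nonneg ‖(x - c).2‖]
    · apply abs_le_of_sq_le_sq' _ (abs_nonneg r) |>.2
      rw [sq_abs]
      nlinarith [sq_nonneg ‖(x - c).1‖]

/-- a Dini type lemma -/
theorem K7_dini {X : Type} [TopologicalSpace X] [CompactSpace X] (f : ℕ → X → ℝ) (h g : X → ℝ)
    (hf : ∀ k, Continuous (f k)) (hg : Continuous g) (hdec : ∀ k x, f (k + 1) x ≤ f k x)
    (hlim : ∀ x, Tendsto (fun k => f k x) atTop (𝓝 (h x))) (hlt : ∀ x, h x < g x) :
    ∃ k0, ∀ k ≥ k0, ∀ x, f k x < g x := by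
  have hanti : ∀ x, Antitone fun k => f k x := fun x => antitone_nat_of_succ_le fun k => hdec k x
  have hopen : ∀ k, IsOpen {x | f k x < g x} := fun k => isOpen_lt (hf k) hg
  have hcov : (univ : Set X) ⊆ ⋃ k, {x | f k x < g x} := by
    intro x _
    rw [mem_iUnion]
    exact ((hlim x).eventually (gt_mem_nhds (hlt x))).exists
  have hdir : Directed (· ⊆ ·) fun k => {x | f k x < g x} := by
    apply Monotone.directed_le
    intro k l hkl x hx
    exact lt_of_le_of_lt (hanti x hkl) hx
  obtain ⟨k0, hk0⟩ := isCompact_univ.elim_directed_cover _ hopen hcov hdir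
  exact ⟨k0, fun k hk x => lt_of_le_of_lt (hanti x hk) (hk0 (mem_univ x))⟩

theorem K7 (hK5 : K5_stmt) (hK6 : K6_stmt) (hA3 : A3_stmt) : K7_stmt := by
  intro X _ _ _ K φ hφ
  -- `φ < ⊤`
  have htop : ∀ x, φ x < ⊤ := by
    intro x
    obtain ⟨i, hx, -⟩ := K.cover x
    have h1 : φ ((K.e i).symm (K.e i x)) + ((K.ρ i (K.e i x) : ℝ) : EReal) < ⊤ :=
      (hφ i).2.1 (K.e i x) ((K.e i).map_source hx)
    rw [(K.e i).left_inv hx] at h1
    rw [lt_top_iff_ne_top]
    intro h2
    rw [h2, EReal.top_add_coe] at h1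
    exact lt_irrefl _ h1
  -- an upper bound
  obtain ⟨m, hm⟩ : ∃ m : ℝ, ∀ x, φ x ≤ (m : EReal) := by
    have h1 : ∀ i, ∃ m : ℝ, ∀ x ∈ (K.e i).source, K.e i x ∈ cbal (K.c i) (K.R i) →
        φ x ≤ (m : EReal) := by
      intro i
      have hcp := K7_cbal (K.c i) (K.R i)
      have hne : (cbal (K.c i) (K.R i)).Nonempty := by
        refine ⟨K.c i, ?_⟩
        unfold cbal nsq
        simp only [mem_ofPred_eq, sub_self, Prod.fst_zero, Prod.snd_zero, norm_zero]
        have := sq_nonneg (K.R i)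
        linarith
      obtain ⟨a, ha, hmax⟩ := ((hφ i).1.mono (K.ball_sub i)).exists_isMaxOn hne hcp
      have ha' := (hφ i).2.1 a (K.ball_sub i ha)
      obtain ⟨b, hb, hbmax⟩ := hcp.exists_isMinOn hne
        ((K.ρ_smooth i).continuousOn.mono (K.ball_sub i))
      obtain ⟨r, hr1, hr2⟩ := EReal.lt_iff_exists_real_btwn.1 ha'
      refine ⟨r - K.ρ i b, fun x hx hxb => ?_⟩
      have h2 := hmax hxb
      have h2' : φ ((K.e i).symm (K.e i x)) + ((K.ρ i (K.e i x) : ℝ) : EReal) ≤
        φ ((K.e i).symm a) + ((K.ρ i a : ℝ) : EReal) := h2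
      rw [(K.e i).left_inv hx] at h2'
      have h3 : φ x + ((K.ρ i (K.e i x) : ℝ) : EReal) ≤ (r : EReal) := h2'.trans hr1.le
      have h4 : K.ρ i b ≤ K.ρ i (K.e i x) := hbmax hxb
      induction hh : φ x using EReal.rec with
      | bot => exact bot_le
      | top => exact absurd (htop x) (by rw [hh]; exact lt_irrefl _)
      | coe v =>
        rw [hh] at h3
        have h5 : v + K.ρ i (K.e i x) ≤ r := by exact_mod_cast h3
        rw [EReal.coe_le_coe_iff]
        linarith
    choose m hm using h1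
    refine ⟨∑ i, |m i|, fun x => ?_⟩
    obtain ⟨i, hx, hxb⟩ := K.cover x
    have h2 : K.e i x ∈ cbal (K.c i) (K.R i) := by
      have h3 : nsq (K.e i x - K.c i) < (K.R i / 2) ^ 2 := hxb
      have h4 : nsq (K.e i x - K.c i) ≤ (K.R i) ^ 2 := by
        have := K.R_pos i
        nlinarith
      exact h4
    refine (hm i x hx h2).trans ?_
    rw [EReal.coe_le_coe_iff]
    exact (le_abs_self _).trans
      (Finset.single_le_sum (f := fun i => |m i|) (fun i _ => abs_nonneg _) (Finset.mem_univ i))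
  -- the truncations
  let t : ℕ → X → ℝ := fun j x => (max (φ x) ((-(j : ℝ) : ℝ) : EReal)).toReal
  have ht : ∀ j x, ((t j x : ℝ) : EReal) = max (φ x) ((-(j : ℝ) : ℝ) : EReal) := by
    intro j x
    apply EReal.coe_toReal
    · exact (max_lt (htop x) (EReal.coe_lt_top _)).ne
    · exact (lt_of_lt_of_le (EReal.bot_lt_coe _) (le_max_right _ _)).ne'
  have hφt : ∀ j x, φ x ≤ ((t j x : ℝ) : EReal) := fun j x => by
    rw [ht]; exact le_max_left _ _
  have htdec : ∀ i j x, i ≤ j → t j x ≤ t i x := by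
    intro i j x hij
    rw [← EReal.coe_le_coe_iff, ht, ht]
    apply max_le_max le_rfl
    rw [EReal.coe_le_coe_iff]
    have : (i : ℝ) ≤ j := by exact_mod_cast hij
    linarith
  have htbd : ∀ j, ∃ m' : ℝ, ∀ x, |t j x| ≤ m' := by
    intro j
    refine ⟨max |m| j, fun x => ?_⟩
    rw [abs_le]
    constructor
    · have h1 : -(j : ℝ) ≤ t j x := by
        rw [← EReal.coe_le_coe_iff, ht]; exact le_max_right _ _
      have h2 : (j : ℝ) ≤ max |m| j := le_max_right _ _
      linarith
    · rw [← EReal.coe_le_coe_iff, ht]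
      refine max_le ((hm x).trans ?_) ?_
      · rw [EReal.coe_le_coe_iff]
        exact (le_abs_self m).trans (le_max_left _ _)
      · rw [EReal.coe_le_coe_iff]
        have h1 : (0 : ℝ) ≤ j := Nat.cast_nonneg j
        have h2 : (j : ℝ) ≤ max |m| j := le_max_right _ _
        linarith
  have htpsh : ∀ j i, PshB (K.e i).target (K.pot i (t j)) := by
    intro j i
    have hv : PshOn (K.e i).target (fun y => K.ρ i y + -(j : ℝ)) := by
      refine (hA3.2 _ _ (K.e i).open_target ?_).2 fun y hy ξ => ?_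
      · have h2 : ContDiffOn ℝ 2 (K.ρ i) (K.e i).target := contDiffOn_infty.1 (K.ρ_smooth i) 2
        exact h2.add contDiffOn_const
      · rw [K7_lap_add]
        by_cases hξ : ξ = 0
        · rw [hξ, K7_lap_zero]
        · exact (K.ρ_pos i y hy ξ hξ).le
    have h1 := hK6 _ _ _ (K.e i).open_target (hφ i) hv
    have h2 : K.pot i (t j) = fun y => (max (φ ((K.e i).symm y) + ((K.ρ i y : ℝ) : EReal))
        (((K.ρ i y + -(j : ℝ) : ℝ)) : EReal)).toReal := by
      funext y
      unfold KS.pot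
      have h3 : max (φ ((K.e i).symm y) + ((K.ρ i y : ℝ) : EReal))
        (((K.ρ i y + -(j : ℝ) : ℝ)) : EReal) =
          (((K.ρ i y + t j ((K.e i).symm y) : ℝ)) : EReal) := by
        rw [EReal.coe_add, EReal.coe_add, ht, add_comm (φ _)]
        exact (Monotone.map_max (f := fun z : EReal => ((K.ρ i y : ℝ) : EReal) + z)
          (fun a b hab => by simpa using add_le_add_right hab _)).symm
      rw [h3, EReal.toReal_coe]
    rw [h2]
    exact h1
  have hreg : ∀ j, ∃ f : ℕ → X → ℝ, (∀ k, f k ∈ K.PS) ∧ (∀ k x, f (k + 1) x ≤ f k x) ∧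
      ∀ x, Tendsto (fun k => f k x) atTop (𝓝 (t j x)) := fun j => hK5 X K (t j) (htbd j) (htpsh j)
  choose f hfPS hfdec hflim using hreg
  have hfcont : ∀ j k, Continuous (f j k) := fun j k => K7_cont K _ (hfPS j k)
  have hanti : ∀ j x, Antitone fun k => f j k x := fun j x =>
    antitone_nat_of_succ_le fun k => hfdec j k x
  have hft : ∀ j k x, t j x ≤ f j k x := fun j k x => (hanti j x).le_of_tendsto (hflim j x) k
  -- the choice of indices
  have hstep : ∀ j k : ℕ, ∃ k' : ℕ, (∀ x, f (j + 1) k' x ≤ f j k x + (1 / 2) ^ j) ∧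
      ∀ i ≤ j + 1, ∀ x, f (j + 1) k' x ≤ f i (j + 1) x + (1 / 2) ^ (j + 1) := by
    intro j k
    obtain ⟨k0, hk0⟩ := K7_dini (f (j + 1)) (t (j + 1)) (fun x => f j k x + (1 / 2) ^ j)
      (hfcont (j + 1)) ((hfcont j k).add continuous_const) (hfdec (j + 1)) (hflim (j + 1))
      (fun x => by
        have h1 := htdec j (j + 1) x (Nat.le_succ j)
        have h2 := hft j k x
        have h3 : (0 : ℝ) < (1 / 2) ^ j := by positivity
        linarith)
    have h2 : ∀ i : ℕ, ∃ k1 : ℕ, i ≤ j + 1 → ∀ k ≥ k1, ∀ x,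
        f (j + 1) k x < f i (j + 1) x + (1 / 2) ^ (j + 1) := by
      intro i
      by_cases hi : i ≤ j + 1
      · obtain ⟨k1, hk1⟩ := K7_dini (f (j + 1)) (t (j + 1))
          (fun x => f i (j + 1) x + (1 / 2) ^ (j + 1))
          (hfcont (j + 1)) ((hfcont i (j + 1)).add continuous_const) (hfdec (j + 1))
          (hflim (j + 1))
          (fun x => by
            have h1 := htdec i (j + 1) x hi
            have h2 := hft i (j + 1) x
            have h3 : (0 : ℝ) < (1 / 2) ^ (j + 1) := by positivity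
            linarith)
        exact ⟨k1, fun _ => hk1⟩
      · exact ⟨0, fun h => absurd h hi⟩
    choose k1 hk1 using h2
    refine ⟨max k0 ((Finset.range (j + 2)).sup k1), fun x => ?_, fun i hi x => ?_⟩
    · exact (hk0 _ (le_max_left _ _) x).le
    · refine (hk1 i hi _ ?_ x).le
      exact (Finset.le_sup (f := k1) (Finset.mem_range.2 (by omega))).trans (le_max_right _ _)
  choose next hnext1 hnext2 using hstep
  let κ : ℕ → ℕ := fun j => Nat.rec 0 (fun j k => next j k) j
  have hκ : ∀ j, κ (j + 1) = next j (κ j) := fun j => rfl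
  refine ⟨fun j x => f j (κ j) x + 2 * (1 / 2) ^ j, fun j => K7_add K _ (hfPS j (κ j)) _, ?_, ?_⟩
  · intro j x
    have h1 := hnext1 j (κ j) x
    rw [← hκ] at h1
    have h2 : (2 : ℝ) * (1 / 2) ^ (j + 1) = (1 / 2) ^ j := by rw [pow_succ]; ring
    show f (j + 1) (κ (j + 1)) x + 2 * (1 / 2) ^ (j + 1) ≤ f j (κ j) x + 2 * (1 / 2) ^ j
    rw [h2]
    linarith
  · intro x
    rw [tendsto_order]
    constructor
    · intro a ha
      refine Eventually.of_forall fun j => lt_of_lt_of_le ha ?_
      refine (hφt j x).trans ?_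
      rw [EReal.coe_le_coe_iff]
      have h1 := hft j (κ j) x
      have h2 : (0 : ℝ) < (1 / 2) ^ j := by positivity
      linarith
    · intro a ha
      obtain ⟨r, hr1, hr2⟩ := EReal.lt_iff_exists_real_btwn.1 ha
      obtain ⟨i, hi⟩ := exists_nat_gt (-r)
      have hti : t i x < r := by
        rw [← EReal.coe_lt_coe_iff, ht]
        refine max_lt hr1 ?_
        rw [EReal.coe_lt_coe_iff]
        linarith
      have hlim : Tendsto (fun j : ℕ => f i j x + 3 * (1 / 2 : ℝ) ^ j) atTop
          (𝓝 (t i x + 3 * 0)) :=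
        (hflim i x).add (((tendsto_pow_atTop_nhds_zero_of_lt_one (by norm_num)
          (by norm_num : (1 / 2 : ℝ) < 1))).const_mul 3)
      have hlt : t i x + 3 * 0 < r := by linarith
      filter_upwards [hlim.eventually (gt_mem_nhds hlt), eventually_ge_atTop (i + 1)] with j hj hij
      refine lt_trans ?_ hr2
      rw [EReal.coe_lt_coe_iff]
      obtain ⟨j', rfl⟩ : ∃ j', j = j' + 1 := ⟨j - 1, by omega⟩
      have h1 := hnext2 j' (κ j') i (by omega) x
      rw [← hκ] at h1
      linarith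

end MAP
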